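import Mathlib
import Pool.Agent.NH88.FY.Cost
import Pool.Agent.NH88.FX.Main

set_option autoImplicit false
set_option exponentiation.threshold 100000000

/-!
The cost function for the classes between the deterministic 1-limited automata and those of
subexponential ambiguity.
-/

namespace Pool.Agent.NH88.FZ

open Relation Pool.Agent.H630R2.LA Pool.Agent.R620.KV Pool.Agent.NH19.LA Pool.Agent.NH88.FX
open Pool.Agent.NH88.FY (minSize cost)
open Pool.Agent.NH88.FA (AccLE Subexp subexp_of_poly accLE_of_det)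

theorem subexp_of_det {A : Type} (strict : Prop) (M : LimAut A) (hd : M.Deterministic) :
    Subexp strict M := by
  intro c
  refine ⟨0, fun w _ => ⟨1, accLE_of_det strict M hd w, ?_⟩⟩
  rw [one_pow]
  exact Nat.one_le_two_pow

theorem class_cost (strict : Prop) (P : ∀ A : Type, LimAut A → Prop)
    (hdet : ∀ (A : Type) (M : LimAut A), M.Deterministic → P A M)
    (hsub : ∀ (A : Type) (M : LimAut A), P A M → Subexp strict M) (n : ℕ) :
    cost strict P n ≤ 2 ^ ((n + 2) ^ 4) ∧
      (4160 ≤ n → 2 ^ (n ^ 2) ≤ cost strict P n ^ 80000000) := by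
  have hb : ∀ s ∈ {s | ∃ (A : Type) (_ : Finite A) (M : LimAut A), M.size ≤ n ∧
      s = minSize strict (P A) (M.language strict)}, s ≤ 2 ^ ((n + 2) ^ 4) := by
    rintro s ⟨A, _, M, hM, rfl⟩
    obtain ⟨M', h1, h2, h3⟩ := upper M strict
    have h4 : minSize strict (P A) (M.language strict) ≤ M'.size :=
      Nat.sInf_le (s := {s | ∃ M₁ : LimAut A, P A M₁ ∧ M₁.language strict = M.language strict ∧
        M₁.size = s}) ⟨M', hdet A M' h1, h2, rfl⟩
    refine h4.trans (h3.trans ?_)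
    apply Nat.pow_le_pow_right (by omega)
    exact Nat.pow_le_pow_left (by omega) 4
  refine ⟨csSup_le' hb, fun hn => ?_⟩
  obtain ⟨m, hm1, hm2, hm3⟩ : ∃ m, 1 ≤ m ∧ 2080 * (m + 1) ≤ n ∧ n ≤ 2080 * (m + 2) := by
    refine ⟨n / 2080 - 1, ?_, ?_, ?_⟩ <;> omega
  have h2 : {s | ∃ M : LimAut Ltr, P Ltr M ∧ M.language strict = (witM m).language strict ∧
      M.size = s}.Nonempty := by
    obtain ⟨M', h3, h4, _⟩ := upper (witM m) strict
    exact ⟨_, M', hdet Ltr M' h3, h4, rfl⟩
  obtain ⟨M', h3, h4, h5⟩ := Nat.sInf_mem h2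
  have h6 := size_lower' (sub_lower pol hm1 (hsub Ltr M' h3) h4)
  have h7 : M'.size = minSize strict (P Ltr) ((witM m).language strict) := h5
  have h8 : minSize strict (P Ltr) ((witM m).language strict) ≤ cost strict P n :=
    le_csSup ⟨_, hb⟩ ⟨Ltr, inferInstance, witM m, (size_witM m).trans hm2, rfl⟩
  rw [h7] at h6
  have h9 : n ^ 2 ≤ m ^ 2 * 40000000 := by
    have h10 : n ≤ 6240 * m := by omega
    have h11 : n ^ 2 ≤ (6240 * m) ^ 2 := Nat.pow_le_pow_left h10 2
    nlinarith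
  generalize minSize strict (P Ltr) ((witM m).language strict) = s at h6 h8
  generalize cost strict P n = C at h8
  calc 2 ^ (n ^ 2) ≤ 2 ^ (m ^ 2 * 40000000) := Nat.pow_le_pow_right (by omega) h9
    _ = (2 ^ (m ^ 2)) ^ 40000000 := by rw [pow_mul]
    _ ≤ (s ^ 2) ^ 40000000 := Nat.pow_le_pow_left h6 _
    _ ≤ (C ^ 2) ^ 40000000 := Nat.pow_le_pow_left (Nat.pow_le_pow_left h8 2) _
    _ = C ^ 80000000 := by rw [← pow_mul]

end Pool.Agent.NH88.FZ
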